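import Pool.Agent.L5helper32.GP.Defs

/-!
# The gcd recursion with random integers: the first jump is large with small probability

`exc_of` and `exc'_of` prove `exc` and `exc'` from the statements `div_bound`, `prob_jump`, `exists_kill`,
`root_of_dvd_jump`, `jump_dvd`, `prob_root`, `w_le` of the other files, which are hypotheses here.
-/

set_option autoImplicit false

open Finset MeasureTheory ProbabilityTheory

namespace Pool.Agent.L5helper32.GP.ExcOf

open Pool.Agent.L5helper32.GR (Root w pr sg Dep lev q)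

/-- Two different prime divisors of `n ≥ 1` have a product which is at most `n`. -/
theorem mul_le_of_primes {n r s : ℕ} (hn : 1 ≤ n) (hr : r.Prime) (hs : s.Prime) (hrs : r ≠ s)
    (h1 : r ∣ n) (h2 : s ∣ n) : r * s ≤ n :=
  Nat.le_of_dvd hn (Nat.Coprime.mul_dvd_of_dvd_of_dvd ((Nat.coprime_primes hr hs).2 hrs) h1 h2)

/-- A divisor `J ≥ 2` of `n ≤ x`, all prime divisors of which are larger than `i > √x`, is prime. -/
theorem prime_of_big {J n x i : ℕ} (hJ : 2 ≤ J) (hn : 1 ≤ n) (hnx : n ≤ x) (hJn : J ∣ n)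
    (hi : Nat.sqrt x < i) (hbig : ∀ r, r.Prime → r ∣ J → i < r) : J.Prime := by
  have hsq : x < i * i := Nat.sqrt_lt.1 hi
  have hJ1 : J ≠ 1 := by omega
  have hr := Nat.minFac_prime hJ1
  have hrJ := Nat.minFac_dvd J
  obtain ⟨k, hk⟩ := hrJ
  have hJle : J ≤ n := Nat.le_of_dvd hn hJn
  by_cases hk1 : k = 1
  · rw [hk1, mul_one] at hk
    rw [hk]; exact hr
  · exfalso
    have hs := Nat.minFac_prime hk1
    have hsk := Nat.minFac_dvd k
    have hsJ : k.minFac ∣ J := hsk.trans ⟨J.minFac, by rw [mul_comm]; exact hk⟩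
    have hk0 : 0 < k := by
      rcases Nat.eq_zero_or_pos k with h | h
      · rw [h, mul_zero] at hk; omega
      · exact h
    have h1 : i < J.minFac := hbig _ hr ⟨k, hk⟩
    have h2 : i < k.minFac := hbig _ hs hsJ
    have h3 : k.minFac ≤ k := Nat.minFac_le hk0
    have h4 : i * i ≤ J.minFac * k := Nat.mul_le_mul h1.le (h2.le.trans h3)
    omega

section

variable
    (div_bound : ∀ (p : ℕ) {ε : ℝ} (_ : 0 < ε), ∃ C : ℝ, 0 < C ∧ ∀ n : ℕ, 1 ≤ n →
      ∏ r ∈ n.primeFactors, (1 + 4 * p * (n.factorization r : ℝ)) ≤ C * (n : ℝ) ^ ε)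
    (prob_jump : ∀ {p : ℕ} (_ : p.Prime) {Ω : Type} [MeasurableSpace Ω] {μ : Measure Ω}
      [IsProbabilityMeasure μ] {T : ℕ × ℕ × ℕ → Ω → ℕ} (_ : Res μ T) (c n G : ℕ) (_ : 1 ≤ G),
      μ.real {ω | G ≤ jump p (res T ω c) n}
        ≤ (∏ r ∈ n.primeFactors, (1 + 4 * p * (n.factorization r : ℝ))) / G)
    (exists_kill : ∀ {p : ℕ} {D : ℕ → ℕ → ℕ} {x y r : ℕ} (_ : r.Prime) (_ : r ≤ y) (_ : y ≤ x)
      (_ : Root p r (D r 0)),
      ∃ i < y, (∀ i' < i, jump p D (x - i') = 1) ∧ 2 ≤ jump p D (x - i))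
    (root_of_dvd_jump : ∀ {p : ℕ} {D : ℕ → ℕ → ℕ} {x r : ℕ} (_ : r.Prime) (_ : r ∣ jump p D x)
      (_ : x ≠ 0), r ∣ x ∧ Root p r (D r 0))
    (jump_dvd : ∀ (p : ℕ) (D : ℕ → ℕ → ℕ) {x : ℕ} (_ : x ≠ 0), jump p D x ∣ x)
    (prob_root : ∀ {Ω : Type} [MeasurableSpace Ω] {μ : Measure Ω} [IsProbabilityMeasure μ]
      {T : ℕ × ℕ × ℕ → Ω → ℕ} (_ : Res μ T) (p c : ℕ) {r : ℕ} (_ : r.Prime),
      μ.real {ω | Root p r (res T ω c r 0)} = (w p r : ℝ) / r)
    (w_le : ∀ {p r : ℕ} (_ : p.Prime) (_ : r.Prime), w p r ≤ p)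

include root_of_dvd_jump jump_dvd in
/-- If no root prime is `≤ i`, with `√x < i`, a jump which is at least `G ≥ 2` at `x - i` is a prime. -/
theorem exists_big {p : ℕ} {D : ℕ → ℕ → ℕ} {x i G : ℕ} (hG : 2 ≤ G) (hix : i < x)
    (hi : Nat.sqrt x < i) (hno : ∀ r, r.Prime → r ≤ i → ¬ Root p r (D r 0))
    (hj : G ≤ jump p D (x - i)) :
    ∃ r ∈ (x - i).primeFactors, G ≤ r ∧ Root p r (D r 0) := by
  have hn0 : x - i ≠ 0 := by omega
  have hn : 1 ≤ x - i := by omega
  have hJdvd := jump_dvd p D hn0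
  have hJp : (jump p D (x - i)).Prime := by
    refine prime_of_big (by omega) hn (Nat.sub_le x i) hJdvd hi ?_
    intro r hr hrJ
    by_contra h
    exact hno r hr (by omega) (root_of_dvd_jump hr hrJ hn0).2
  refine ⟨jump p D (x - i), ?_, hj, (root_of_dvd_jump hJp dvd_rfl hn0).2⟩
  rw [Nat.mem_primeFactors]
  exact ⟨hJp, hJdvd, hn0⟩

include div_bound prob_jump exists_kill root_of_dvd_jump jump_dvd prob_root w_le in
/-- The first jump is large with small probability. -/
theorem exc_of {p : ℕ} (hp : p.Prime) : ∃ C : ℝ, 0 < C ∧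
    ∀ {Ω : Type} [MeasurableSpace Ω] (μ : Measure Ω) [IsProbabilityMeasure μ]
      (T : ℕ × ℕ × ℕ → Ω → ℕ), Res μ T → ∀ x c y G : ℕ, 1 ≤ G → x < G ^ 2 → y ≤ x →
      μ.real {ω | ∃ i < y, (∀ i' < i, jump p (res T ω c) (x - i') = 1) ∧
        G ≤ jump p (res T ω c) (x - i)} ≤ (C * (x : ℝ) ^ (3 / 4 : ℝ) + p * y) / G := by
  classical
  obtain ⟨C0, hC0, hom⟩ := div_bound p (ε := 1 / 4) (by norm_num)
  refine ⟨2 * C0, by positivity, ?_⟩
  intro Ω _ μ _ T hT x c y G hG hxG hyx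
  rcases Nat.eq_zero_or_pos y with hy0 | hypos
  · subst hy0
    have hemp : {ω | ∃ i < 0, (∀ i' < i, jump p (res T ω c) (x - i') = 1) ∧
        G ≤ jump p (res T ω c) (x - i)} = (∅ : Set Ω) := by
      ext ω; simp
    rw [hemp, measureReal_empty]
    positivity
  have hx1 : 1 ≤ x := le_trans hypos hyx
  have hG2 : 2 ≤ G := by
    by_contra h
    have : G = 1 := by omega
    subst this
    simp at hxG
    omega
  have hGpos : (0 : ℝ) < G := by exact_mod_cast hG
  set s : ℕ := Nat.sqrt x + 1 with hs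
  -- the events
  let A : ℕ → Set Ω := fun i => if i < s then {ω | G ≤ jump p (res T ω c) (x - i)}
    else {ω | ∃ r ∈ (x - i).primeFactors, G ≤ r ∧ Root p r (res T ω c r 0)}
  have hsub : {ω | ∃ i < y, (∀ i' < i, jump p (res T ω c) (x - i') = 1) ∧
        G ≤ jump p (res T ω c) (x - i)} ⊆ ⋃ i ∈ Finset.range y, A i := by
    intro ω hω
    obtain ⟨i, hiy, h1, h2⟩ := hω
    simp only [Set.mem_iUnion]
    refine ⟨i, Finset.mem_range.2 hiy, ?_⟩
    by_cases his : i < s
    · simp only [A, if_pos his]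
      exact h2
    · simp only [A, if_neg his]
      refine exists_big root_of_dvd_jump jump_dvd hG2 (by omega) (by omega) ?_ h2
      intro r hr hri hroot
      obtain ⟨j, hj, -, hj2⟩ := exists_kill (x := x) hr hri (by omega) hroot
      have := h1 j hj
      omega
  -- bounds
  have hbound : ∀ i ∈ Finset.range y, μ.real (A i) ≤
      (if i < s then C0 * (x : ℝ) ^ (1 / 4 : ℝ) / G else 0) + p / G := by
    intro i hi
    rw [Finset.mem_range] at hi
    have hn1 : 1 ≤ x - i := by omega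
    by_cases his : i < s
    · simp only [A, if_pos his]
      have h1 := prob_jump hp hT c (x - i) G hG
      have h2 := hom (x - i) hn1
      have h3 : ((x - i : ℕ) : ℝ) ^ (1 / 4 : ℝ) ≤ (x : ℝ) ^ (1 / 4 : ℝ) := by
        apply Real.rpow_le_rpow (by positivity) _ (by norm_num)
        exact_mod_cast Nat.sub_le x i
      have h4 : (∏ r ∈ (x - i).primeFactors, (1 + 4 * p * ((x - i).factorization r : ℝ))) / G ≤
          C0 * (x : ℝ) ^ (1 / 4 : ℝ) / G := by
        apply div_le_div_of_nonneg_right _ hGpos.le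
        exact h2.trans (mul_le_mul_of_nonneg_left h3 hC0.le)
      have h5 : (0 : ℝ) ≤ p / G := by positivity
      linarith
    · simp only [A, if_neg his]
      rw [zero_add]
      by_cases hex : ∃ r ∈ (x - i).primeFactors, G ≤ r
      · obtain ⟨r, hr, hGr⟩ := hex
        rw [Nat.mem_primeFactors] at hr
        have hsub2 : {ω | ∃ r ∈ (x - i).primeFactors, G ≤ r ∧ Root p r (res T ω c r 0)} ⊆
            {ω | Root p r (res T ω c r 0)} := by
          intro ω hω
          obtain ⟨r', hr', hGr', hroot⟩ := hω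
          rw [Nat.mem_primeFactors] at hr'
          have : r' = r := by
            by_contra hne
            have h1 := mul_le_of_primes hn1 hr'.1 hr.1 hne hr'.2.1 hr.2.1
            have h2 : G * G ≤ r' * r := Nat.mul_le_mul hGr' hGr
            have h3 : G ^ 2 = G * G := by ring
            omega
          subst this
          exact hroot
        have h1 : μ.real {ω | ∃ r ∈ (x - i).primeFactors, G ≤ r ∧ Root p r (res T ω c r 0)} ≤
            μ.real {ω | Root p r (res T ω c r 0)} := measureReal_mono hsub2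
        rw [prob_root hT p c hr.1] at h1
        have h2 : (w p r : ℝ) ≤ p := by exact_mod_cast w_le hp hr.1
        have h3 : (G : ℝ) ≤ r := by exact_mod_cast hGr
        have h4 : (w p r : ℝ) / r ≤ p / G := by
          apply div_le_div₀ (by positivity) h2 hGpos h3
        linarith
      · have hemp : {ω | ∃ r ∈ (x - i).primeFactors, G ≤ r ∧ Root p r (res T ω c r 0)} =
            (∅ : Set Ω) := by
          ext ω
          simp only [Set.mem_ofPred_eq, Set.mem_empty_iff_false, iff_false]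
          rintro ⟨r, hr, hGr, -⟩
          exact hex ⟨r, hr, hGr⟩
        rw [hemp, measureReal_empty]
        positivity
  -- the sum
  have h1 : μ.real {ω | ∃ i < y, (∀ i' < i, jump p (res T ω c) (x - i') = 1) ∧
        G ≤ jump p (res T ω c) (x - i)} ≤ ∑ i ∈ Finset.range y, μ.real (A i) :=
    (measureReal_mono hsub (measure_ne_top _ _)).trans (measureReal_biUnion_finset_le _ _)
  have h2 : ∑ i ∈ Finset.range y, μ.real (A i) ≤
      ∑ i ∈ Finset.range y, ((if i < s then C0 * (x : ℝ) ^ (1 / 4 : ℝ) / G else 0) + p / G) :=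
    Finset.sum_le_sum hbound
  rw [Finset.sum_add_distrib, Finset.sum_const, Finset.card_range, nsmul_eq_mul,
    ← Finset.sum_filter, Finset.sum_const, nsmul_eq_mul] at h2
  have hcard : ((#{i ∈ Finset.range y | i < s} : ℕ) : ℝ) ≤ 2 * (x : ℝ) ^ (1 / 2 : ℝ) := by
    have hc : #{i ∈ Finset.range y | i < s} ≤ s := by
      calc #{i ∈ Finset.range y | i < s} ≤ #(Finset.range s) := by
            apply Finset.card_le_card
            intro i hi
            rw [Finset.mem_filter] at hi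
            exact Finset.mem_range.2 hi.2
        _ = s := Finset.card_range s
    have h3 : ((Nat.sqrt x : ℕ) : ℝ) ≤ (x : ℝ) ^ (1 / 2 : ℝ) := by
      rw [← Real.sqrt_eq_rpow]
      exact Real.nat_sqrt_le_real_sqrt
    have h4 : (1 : ℝ) ≤ (x : ℝ) ^ (1 / 2 : ℝ) := by
      apply Real.one_le_rpow _ (by norm_num)
      exact_mod_cast hx1
    have h5 : ((#{i ∈ Finset.range y | i < s} : ℕ) : ℝ) ≤ (s : ℝ) := by exact_mod_cast hc
    have h6 : (s : ℝ) = (Nat.sqrt x : ℕ) + 1 := by rw [hs]; push_cast; ring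
    linarith
  have hpow : (x : ℝ) ^ (1 / 2 : ℝ) * (x : ℝ) ^ (1 / 4 : ℝ) = (x : ℝ) ^ (3 / 4 : ℝ) := by
    rw [← Real.rpow_add (by exact_mod_cast hx1)]
    norm_num
  have h7 : ((#{i ∈ Finset.range y | i < s} : ℕ) : ℝ) * (C0 * (x : ℝ) ^ (1 / 4 : ℝ) / G) ≤
      2 * (x : ℝ) ^ (1 / 2 : ℝ) * (C0 * (x : ℝ) ^ (1 / 4 : ℝ) / G) :=
    mul_le_mul_of_nonneg_right hcard (by positivity)
  have h8 : 2 * (x : ℝ) ^ (1 / 2 : ℝ) * (C0 * (x : ℝ) ^ (1 / 4 : ℝ) / G) =
      2 * C0 * (x : ℝ) ^ (3 / 4 : ℝ) / G := by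
    rw [← hpow]; ring
  have h9 : (2 * C0 * (x : ℝ) ^ (3 / 4 : ℝ) + p * y) / G =
      2 * C0 * (x : ℝ) ^ (3 / 4 : ℝ) / G + y * (p / G) := by ring
  rw [h9]
  linarith

include div_bound prob_jump in
theorem exc'_of {p : ℕ} (hp : p.Prime) {ε : ℝ} (hε : 0 < ε) : ∃ C : ℝ, 0 < C ∧
    ∀ {Ω : Type} [MeasurableSpace Ω] (μ : Measure Ω) [IsProbabilityMeasure μ]
      (T : ℕ × ℕ × ℕ → Ω → ℕ), Res μ T → ∀ x c y G : ℕ, 1 ≤ G → y ≤ x →
      μ.real {ω | ∃ i < y, (∀ i' < i, jump p (res T ω c) (x - i') = 1) ∧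
        G ≤ jump p (res T ω c) (x - i)} ≤ C * y * (x : ℝ) ^ ε / G := by
  obtain ⟨C, hC, hb⟩ := div_bound p hε
  refine ⟨C, hC, ?_⟩
  intro Ω _ μ _ T h x c y G hG hyx
  have hG0 : (0 : ℝ) < G := by exact_mod_cast hG
  have hsub : {ω | ∃ i < y, (∀ i' < i, jump p (res T ω c) (x - i') = 1) ∧
        G ≤ jump p (res T ω c) (x - i)} ⊆
      ⋃ i ∈ range y, {ω | G ≤ jump p (res T ω c) (x - i)} := by
    rintro ω ⟨i, hi, -, h2⟩
    simp only [Set.mem_iUnion, exists_prop]
    exact ⟨i, Finset.mem_range.mpr hi, h2⟩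
  calc μ.real {ω | ∃ i < y, (∀ i' < i, jump p (res T ω c) (x - i') = 1) ∧
        G ≤ jump p (res T ω c) (x - i)}
      ≤ μ.real (⋃ i ∈ range y, {ω | G ≤ jump p (res T ω c) (x - i)}) :=
        measureReal_mono hsub (measure_ne_top _ _)
    _ ≤ ∑ i ∈ range y, μ.real {ω | G ≤ jump p (res T ω c) (x - i)} :=
        measureReal_biUnion_finset_le _ _
    _ ≤ ∑ _i ∈ range y, C * (x : ℝ) ^ ε / G := by
        refine Finset.sum_le_sum fun i hi => ?_
        rw [Finset.mem_range] at hi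
        refine (prob_jump hp h c (x - i) G hG).trans ?_
        apply div_le_div_of_nonneg_right _ hG0.le
        refine (hb (x - i) (by omega)).trans ?_
        apply mul_le_mul_of_nonneg_left _ hC.le
        apply Real.rpow_le_rpow (by positivity) _ hε.le
        exact_mod_cast Nat.sub_le x i
    _ = C * y * (x : ℝ) ^ ε / G := by
        rw [Finset.sum_const, Finset.card_range, nsmul_eq_mul]
        ring

end

end Pool.Agent.L5helper32.GP.ExcOf
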