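import Pool.Agent.L5helper66.TD.Defs2

/-! # The contribution of an edge in terms of the six distances -/

set_option autoImplicit false

open scoped TensorProduct RealInnerProductSpace

namespace Pool.Agent.L5helper97.NF

open Pool.Agent.L5helper66.TD

lemma inner_of_dist (X Y Z : E3) (a b d : ℝ) (h1 : dist X Y = |a|) (h2 : dist X Z = |b|)
    (h3 : dist Y Z = |d|) : ⟪Y - X, Z - X⟫ = (a ^ 2 + b ^ 2 - d ^ 2) / 2 := by
  have e1 : ‖Y - X‖ ^ 2 = a ^ 2 := by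
    rw [← dist_eq_norm, dist_comm, h1, sq_abs]
  have e2 : ‖Z - X‖ ^ 2 = b ^ 2 := by
    rw [← dist_eq_norm, dist_comm, h2, sq_abs]
  have e3 : ‖(Y - X) - (Z - X)‖ ^ 2 = d ^ 2 := by
    rw [sub_sub_sub_cancel_right, ← dist_eq_norm, h3, sq_abs]
  have e4 := norm_sub_sq_real (Y - X) (Z - X)
  rw [e1, e2, e3] at e4
  linarith

lemma inner_self_of_dist (X Y : E3) (a : ℝ) (h1 : dist X Y = |a|) : ⟪Y - X, Y - X⟫ = a ^ 2 := by
  rw [real_inner_self_eq_norm_sq, ← dist_eq_norm, dist_comm, h1, sq_abs]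

lemma inner_orth (u v w : E3) (A B C D : ℝ) (hA : ⟪u, u⟫ = A) (hB : ⟪u, v⟫ = B)
    (hC : ⟪u, w⟫ = C) (hD : ⟪v, w⟫ = D) (hA0 : A ≠ 0) :
    ⟪orth u v, orth u w⟫ = D - B * C / A := by
  unfold orth
  rw [inner_sub_left, inner_sub_right, inner_sub_right, real_inner_smul_left,
    real_inner_smul_left, real_inner_smul_right, real_inner_smul_right, real_inner_comm u v,
    hA, hB, hC, hD]
  field_simp
  ring

theorem term_dist (P Q R S : E3) (a b c d e f : ℝ) (h1 : dist P Q = |a|) (h2 : dist P R = |b|)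
    (h3 : dist P S = |c|) (h4 : dist Q R = |d|) (h5 : dist Q S = |e|) (h6 : dist R S = |f|)
    (hpos : 0 < cm a b c d e f) :
    ∃ θ : ℝ, term P Q R S = a ⊗ₜ[ℤ] ang θ ∧
      Dir θ (2 * a ^ 2 * (b ^ 2 + c ^ 2 - f ^ 2) - (a ^ 2 + b ^ 2 - d ^ 2) * (a ^ 2 + c ^ 2 - e ^ 2))
        (a * √(2 * cm a b c d e f)) := by
  have ha : a ≠ 0 := by
    intro h0
    subst h0
    rw [abs_zero, dist_eq_zero] at h1
    subst h1
    have hd : d ^ 2 = b ^ 2 := by rw [← sq_abs d, ← h4, h2, sq_abs]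
    have he : e ^ 2 = c ^ 2 := by rw [← sq_abs e, ← h5, h3, sq_abs]
    unfold cm at hpos
    rw [hd, he] at hpos
    simp at hpos
  have ha2 : (0 : ℝ) < a ^ 2 := by positivity
  have huu := inner_self_of_dist P Q a h1
  have hvv := inner_self_of_dist P R b h2
  have hww := inner_self_of_dist P S c h3
  have huv := inner_of_dist P Q R a b d h1 h2 h4
  have huw := inner_of_dist P Q S a c e h1 h3 h5
  have hvw := inner_of_dist P R S b c f h2 h3 h6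
  have o1 := inner_orth _ _ _ _ _ _ _ huu huv huv hvv ha2.ne'
  have o2 := inner_orth _ _ _ _ _ _ _ huu huw huw hww ha2.ne'
  have o3 := inner_orth _ _ _ _ _ _ _ huu huv huw hvw ha2.ne'
  set ov := orth (Q - P) (R - P) with hov
  set ow := orth (Q - P) (S - P) with how
  have hdet : ⟪ov, ov⟫ * ⟪ow, ow⟫ - ⟪ov, ow⟫ * ⟪ov, ow⟫ = cm a b c d e f / (8 * a ^ 2) := by
    rw [o1, o2, o3]
    unfold cm
    field_simp
    ring
  have hdetpos : 0 < ⟪ov, ov⟫ * ⟪ow, ow⟫ - ⟪ov, ow⟫ * ⟪ov, ow⟫ := by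
    rw [hdet]; positivity
  have hov0 : ov ≠ 0 := by
    intro h0
    rw [h0] at hdetpos
    simp at hdetpos
  have how0 : ow ≠ 0 := by
    intro h0
    rw [h0] at hdetpos
    simp at hdetpos
  have hnv : 0 < ‖ov‖ := norm_pos_iff.2 hov0
  have hnw : 0 < ‖ow‖ := norm_pos_iff.2 how0
  have hcos := InnerProductGeometry.cos_angle_mul_norm_mul_norm ov ow
  have hsin := InnerProductGeometry.sin_angle_mul_norm_mul_norm ov ow
  set θ₀ := InnerProductGeometry.angle ov ow with hθ₀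
  have hdih : dihedral P Q R S = θ₀ := rfl
  have hρ : (0 : ℝ) < 4 * a ^ 2 * (‖ov‖ * ‖ow‖) := by positivity
  have hx : 2 * a ^ 2 * (b ^ 2 + c ^ 2 - f ^ 2) - (a ^ 2 + b ^ 2 - d ^ 2) * (a ^ 2 + c ^ 2 - e ^ 2) =
      4 * a ^ 2 * (‖ov‖ * ‖ow‖) * Real.cos θ₀ := by
    have : 4 * a ^ 2 * (‖ov‖ * ‖ow‖) * Real.cos θ₀ = 4 * a ^ 2 * (Real.cos θ₀ * (‖ov‖ * ‖ow‖)) := by
      ring
    rw [this, hcos, o3]
    field_simp
    ring
  have hcm8 : √(cm a b c d e f / (8 * a ^ 2)) * (4 * a ^ 2) = |a| * √(2 * cm a b c d e f) := by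
    have h8 : cm a b c d e f / (8 * a ^ 2) = (2 * cm a b c d e f) / (4 * |a|) ^ 2 := by
      rw [mul_pow, sq_abs]
      field_simp
      ring
    have habs : 0 < |a| := abs_pos.2 ha
    rw [h8, Real.sqrt_div (by positivity), Real.sqrt_sq (by positivity)]
    have : (4 * a ^ 2 : ℝ) = 4 * |a| * |a| := by rw [mul_assoc, ← sq, sq_abs]
    rw [this]
    field_simp
  have hy : |a| * √(2 * cm a b c d e f) = 4 * a ^ 2 * (‖ov‖ * ‖ow‖) * Real.sin θ₀ := by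
    have : 4 * a ^ 2 * (‖ov‖ * ‖ow‖) * Real.sin θ₀ = (Real.sin θ₀ * (‖ov‖ * ‖ow‖)) * (4 * a ^ 2) := by
      ring
    rw [this, hsin, hdet, hcm8]
  rcases lt_or_gt_of_ne ha with hneg | hpos'
  · refine ⟨-θ₀, ?_, 4 * a ^ 2 * (‖ov‖ * ‖ow‖), hρ.ne', ?_, ?_⟩
    · unfold term
      rw [h1, hdih, abs_of_neg hneg, TensorProduct.neg_tmul, ← TensorProduct.tmul_neg]
      rfl
    · rw [Real.cos_neg]; exact hx
    · rw [Real.sin_neg, mul_neg, ← hy, abs_of_neg hneg]; ring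
  · refine ⟨θ₀, ?_, 4 * a ^ 2 * (‖ov‖ * ‖ow‖), hρ.ne', hx, ?_⟩
    · unfold term
      rw [h1, hdih, abs_of_pos hpos']
    · rw [← hy, abs_of_pos hpos']

end Pool.Agent.L5helper97.NF
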