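import Pool.Agent.L5helper66.TD.Defs2
import Pool.Agent.L5helper3.NFExists

/-! # Existence of the tetrahedra of the second family, all signs -/

set_option autoImplicit false

open scoped TensorProduct RealInnerProductSpace

namespace Pool.Agent.L5helper97.NG

open Pool.Agent.L5helper66.TD

theorem cm_abs (a b c d e f : ℝ) : cm |a| |b| |c| |d| |e| |f| = cm a b c d e f := by
  unfold cm
  simp only [sq_abs]

theorem C_cm (m : ℝ) : cm (4 * m ^ 2 + 36 * m) (3 * m ^ 2 + 14 * m + 27) (-m ^ 2 + 18 * m + 27)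
      (-m ^ 2 + 10 * m + 27) (3 * m ^ 2 + 6 * m + 27) (-2 * m ^ 2 + 8 * m + 18) =
      55296 * (m * (m + 1) * (m + 9) * (m - 3)) ^ 2 * ((m + 5) * (5 * m + 9)) := by
  unfold cm
  ring

theorem C_tri (m : ℝ) : 4 * (4 * m ^ 2 + 36 * m) ^ 2 * (3 * m ^ 2 + 14 * m + 27) ^ 2 -
      ((4 * m ^ 2 + 36 * m) ^ 2 + (3 * m ^ 2 + 14 * m + 27) ^ 2 - (-m ^ 2 + 10 * m + 27) ^ 2) ^ 2 =
      3072 * (m * (m + 9)) ^ 2 * ((m + 1) * (m + 5) * (3 - m)) := by
  ring

/-- NG1 -/
theorem C_exists_all (m : ℝ) (hm : (m < -5 ∧ m ≠ -9) ∨ (-1 < m ∧ m < 3 ∧ m ≠ 0)) :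
    ∃ T : Fin 4 → E3, AffineIndependent ℝ T ∧
      HasEdges T |4 * m ^ 2 + 36 * m| |3 * m ^ 2 + 14 * m + 27| |-m ^ 2 + 18 * m + 27|
      |-m ^ 2 + 10 * m + 27| |3 * m ^ 2 + 6 * m + 27| |-2 * m ^ 2 + 8 * m + 18| := by
  have hm0 : m ≠ 0 := by
    rcases hm with h | h
    · intro h0; linarith [h.1]
    · exact h.2.2
  have hm9 : m + 9 ≠ 0 := by
    rcases hm with h | h
    · intro h0; exact h.2 (by linarith)
    · intro h0; linarith [h.1]
  have hm1 : m + 1 ≠ 0 := by
    rcases hm with h | h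
    · intro h0; linarith [h.1]
    · intro h0; linarith [h.1]
  have hm3 : m - 3 ≠ 0 := by
    rcases hm with h | h
    · intro h0; linarith [h.1]
    · intro h0; linarith [h.2.1]
  have h59 : 0 < (m + 5) * (5 * m + 9) := by
    rcases hm with h | h
    · have h1 : m + 5 < 0 := by linarith [h.1]
      have h2 : 5 * m + 9 < 0 := by linarith [h.1]
      exact mul_pos_of_neg_of_neg h1 h2
    · have h1 : 0 < m + 5 := by linarith [h.1]
      have h2 : 0 < 5 * m + 9 := by linarith [h.1]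
      exact mul_pos h1 h2
  have h153 : 0 < (m + 1) * (m + 5) * (3 - m) := by
    rcases hm with h | h
    · have h1 : m + 5 < 0 := by linarith [h.1]
      have h2 : m + 1 < 0 := by linarith [h.1]
      have h3 : 0 < 3 - m := by linarith [h.1]
      exact mul_pos (mul_pos_of_neg_of_neg h2 h1) h3
    · have h1 : 0 < m + 5 := by linarith [h.1]
      have h2 : 0 < m + 1 := by linarith [h.1]
      have h3 : 0 < 3 - m := by linarith [h.2.1]
      exact mul_pos (mul_pos h2 h1) h3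
  have ha : 4 * m ^ 2 + 36 * m ≠ 0 := by
    have : 4 * m ^ 2 + 36 * m = 4 * (m * (m + 9)) := by ring
    rw [this]
    exact mul_ne_zero (by norm_num) (mul_ne_zero hm0 hm9)
  have hb : 3 * m ^ 2 + 14 * m + 27 ≠ 0 := by
    have : 0 < 3 * m ^ 2 + 14 * m + 27 := by nlinarith [sq_nonneg (3 * m + 7)]
    exact this.ne'
  have hc : -m ^ 2 + 18 * m + 27 ≠ 0 := by
    rcases hm with h | h
    · have : -m ^ 2 + 18 * m + 27 < 0 := by nlinarith [h.1, sq_nonneg m]
      exact this.ne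
    · have : 0 < -m ^ 2 + 18 * m + 27 := by nlinarith [h.1, h.2.1]
      exact this.ne'
  have hd : -m ^ 2 + 10 * m + 27 ≠ 0 := by
    rcases hm with h | h
    · have : -m ^ 2 + 10 * m + 27 < 0 := by nlinarith [h.1, sq_nonneg m]
      exact this.ne
    · have : 0 < -m ^ 2 + 10 * m + 27 := by nlinarith [h.1, h.2.1]
      exact this.ne'
  have he : 3 * m ^ 2 + 6 * m + 27 ≠ 0 := by
    have : 0 < 3 * m ^ 2 + 6 * m + 27 := by nlinarith [sq_nonneg (m + 1)]
    exact this.ne'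
  have hf : -2 * m ^ 2 + 8 * m + 18 ≠ 0 := by
    rcases hm with h | h
    · have : -2 * m ^ 2 + 8 * m + 18 < 0 := by nlinarith [h.1, sq_nonneg m]
      exact this.ne
    · have : 0 < -2 * m ^ 2 + 8 * m + 18 := by nlinarith [h.1, h.2.1]
      exact this.ne'
  refine Pool.Agent.L5helper3.NF.exists_tetra _ _ _ _ _ _ (abs_pos.2 ha) (abs_pos.2 hb)
    (abs_pos.2 hc) (abs_pos.2 hd) (abs_pos.2 he) (abs_pos.2 hf) ?_ ?_
  · simp only [sq_abs]
    have h1 := C_tri m
    have h2 : 0 < 3072 * (m * (m + 9)) ^ 2 * ((m + 1) * (m + 5) * (3 - m)) := by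
      have : 0 < (m * (m + 9)) ^ 2 := by
        have := mul_ne_zero hm0 hm9
        positivity
      positivity
    linarith
  · rw [cm_abs, C_cm]
    have h1 : 0 < (m * (m + 1) * (m + 9) * (m - 3)) ^ 2 := by
      have := mul_ne_zero (mul_ne_zero (mul_ne_zero hm0 hm1) hm9) hm3
      positivity
    positivity

end Pool.Agent.L5helper97.NG
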